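import Mathlib

set_option autoImplicit false

/-!
# Every stable matching mechanism has RAT-degree at most `3`

(as soon as there are at least two agents on each side).
-/

namespace Pool.Agent.Results.MP_35fdad_lc.RatDegreeThree

open Classical

/-- A strict linear order on `α`; `gt x y` means that `x` is strictly preferred to `y`. -/
@[ext] structure Pref (α : Type) where
  /-- strict preference -/
  gt : α → α → Prop
  irrefl : ∀ x, ¬ gt x x
  trans : ∀ x y z, gt x y → gt y z → gt x z
  total : ∀ x y, x ≠ y → gt x y ∨ gt y x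

/-- The possible partners of an agent (`none` is the outcome `φ` of being unmatched): agents of
`M` are matched to agents of `W` and vice versa. -/
abbrev Side (M W : Type) : M ⊕ W → Type
  | Sum.inl _ => Option W
  | Sum.inr _ => Option M

/-- A profile: every agent reports a strict linear order on its possible partners and `φ`. -/
abbrev Profile (M W : Type) : Type := ∀ a : M ⊕ W, Pref (Side M W a)

/-- A matching: every agent has a partner or is unmatched, consistently. -/
structure Matching (M W : Type) where
  /-- the partner of an agent -/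
  partner : ∀ a : M ⊕ W, Side M W a
  symm : ∀ (m : M) (w : W), partner (Sum.inl m) = some w ↔ partner (Sum.inr w) = some m

/-- Stability: no agent ranks `φ` above its partner, and no pair prefers each other to their
partners. -/
def Stable {M W : Type} (P : Profile M W) (μ : Matching M W) : Prop :=
  (∀ m : M, ¬ (P (Sum.inl m)).gt none (μ.partner (Sum.inl m))) ∧
  (∀ w : W, ¬ (P (Sum.inr w)).gt none (μ.partner (Sum.inr w))) ∧
  ∀ (m : M) (w : W), ¬ ((P (Sum.inl m)).gt (some w) (μ.partner (Sum.inl m)) ∧
    (P (Sum.inr w)).gt (some m) (μ.partner (Sum.inr w)))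

/-- A mechanism maps profiles to matchings; it is stable if the output is always stable. -/
def IsStableMechanism {M W : Type} (F : Profile M W → Matching M W) : Prop :=
  ∀ P, Stable P (F P)

/-- With true order `P₀ i` of agent `i`, known agents `K` with reports `P₀ a` (`a ∈ K`), the
report `r` is safe: whatever the remaining agents report, agent `i` weakly prefers (in the true
order) its partner when reporting `r`. -/
def IsSafe {M W : Type} (F : Profile M W → Matching M W) (i : M ⊕ W) (K : Finset (M ⊕ W))
    (P₀ : Profile M W) (r : Pref (Side M W i)) : Prop :=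
  ∀ P : Profile M W, P i = P₀ i → (∀ a ∈ K, P a = P₀ a) →
    (P₀ i).gt ((F (Function.update P i r)).partner i) ((F P).partner i) ∨
    (F (Function.update P i r)).partner i = (F P).partner i

/-- In the same situation, the report `r` is profitable: for some reports of the remaining agents
agent `i` strictly prefers its partner when reporting `r`. -/
def IsProfitable {M W : Type} (F : Profile M W → Matching M W) (i : M ⊕ W)
    (K : Finset (M ⊕ W)) (P₀ : Profile M W) (r : Pref (Side M W i)) : Prop :=
  ∃ P : Profile M W, P i = P₀ i ∧ (∀ a ∈ K, P a = P₀ a) ∧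
    (P₀ i).gt ((F (Function.update P i r)).partner i) ((F P).partner i)

/-- `F` is `k`-known-agents safely manipulable. -/
def Manipulable {M W : Type} (F : Profile M W → Matching M W) (k : ℕ) : Prop :=
  ∃ (i : M ⊕ W) (K : Finset (M ⊕ W)) (P₀ : Profile M W) (r : Pref (Side M W i)),
    i ∉ K ∧ K.card = k ∧ r ≠ P₀ i ∧ IsSafe F i K P₀ r ∧ IsProfitable F i K P₀ r

/-- The RAT-degree of `F`: the least `k ∈ {0, …, n - 1}` such that `F` is `k`-known-agents safely
manipulable, and `n = |M| + |W|` if there is none. -/
noncomputable def ratDegree {M W : Type} [Fintype M] [Fintype W]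
    (F : Profile M W → Matching M W) : ℕ :=
  sInf ({k | k < Fintype.card M + Fintype.card W ∧ Manipulable F k} ∪
    {Fintype.card M + Fintype.card W})

/-! ## Constructing preferences -/

/-- The order given by an injective rank (smaller rank is better). -/
def ofRank {α : Type} (f : α → ℕ) (hf : Function.Injective f) : Pref α where
  gt x y := f x < f y
  irrefl _ := lt_irrefl _
  trans _ _ _ := lt_trans
  total x y h := Nat.lt_or_gt_of_ne (fun e => h (hf e))

/-- An injective rank with prescribed first two elements. -/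
noncomputable def rank2 {α : Type} [Fintype α] (a b : α) (x : α) : ℕ :=
  if x = a then 0 else if x = b then 1 else 3 + (Fintype.equivFin α x : ℕ)

/-- An injective rank with prescribed first three elements. -/
noncomputable def rank3 {α : Type} [Fintype α] (a b c : α) (x : α) : ℕ :=
  if x = a then 0 else if x = b then 1 else if x = c then 2 else 3 + (Fintype.equivFin α x : ℕ)

theorem rank2_inj {α : Type} [Fintype α] (a b : α) : Function.Injective (rank2 a b) := by
  intro x y h
  unfold rank2 at h
  split_ifs at h with h1 h2 h3 h4 h5 h6 h7 h8 <;> first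
    | (subst_vars; rfl)
    | omega
    | (apply (Fintype.equivFin α).injective; apply Fin.ext; omega)
    | simp_all

theorem rank3_inj {α : Type} [Fintype α] (a b c : α) : Function.Injective (rank3 a b c) := by
  intro x y h
  unfold rank3 at h
  split_ifs at h <;> first
    | (subst_vars; rfl)
    | omega
    | (apply (Fintype.equivFin α).injective; apply Fin.ext; omega)
    | simp_all

/-- `a ≻ b ≻` everything else. -/
noncomputable def top2 {α : Type} [Fintype α] (a b : α) : Pref α := ofRank _ (rank2_inj a b)

/-- `a ≻ b ≻ c ≻` everything else. -/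
noncomputable def top3 {α : Type} [Fintype α] (a b c : α) : Pref α := ofRank _ (rank3_inj a b c)

theorem top2_gt_first {α : Type} [Fintype α] {a b x : α} (h : x ≠ a) : (top2 a b).gt a x := by
  show rank2 a b a < rank2 a b x
  unfold rank2
  rw [if_pos rfl, if_neg h]
  split_ifs <;> omega

theorem top2_gt_second {α : Type} [Fintype α] {a b x : α} (hab : b ≠ a) (h : x ≠ a)
    (h' : x ≠ b) : (top2 a b).gt b x := by
  show rank2 a b b < rank2 a b x
  unfold rank2
  rw [if_neg hab, if_pos rfl, if_neg h, if_neg h']
  omega

theorem top3_gt_first {α : Type} [Fintype α] {a b c x : α} (h : x ≠ a) :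
    (top3 a b c).gt a x := by
  show rank3 a b c a < rank3 a b c x
  unfold rank3
  rw [if_pos rfl, if_neg h]
  split_ifs <;> omega

theorem top3_gt_second {α : Type} [Fintype α] {a b c x : α} (hab : b ≠ a) (h : x ≠ a)
    (h' : x ≠ b) : (top3 a b c).gt b x := by
  show rank3 a b c b < rank3 a b c x
  unfold rank3
  rw [if_neg hab, if_pos rfl, if_neg h, if_neg h']
  split_ifs <;> omega

theorem top3_gt_third {α : Type} [Fintype α] {a b c x : α} (hca : c ≠ a) (hcb : c ≠ b)
    (h : x ≠ a) (h' : x ≠ b) (h'' : x ≠ c) : (top3 a b c).gt c x := by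
  show rank3 a b c c < rank3 a b c x
  unfold rank3
  rw [if_neg hca, if_neg hcb, if_pos rfl, if_neg h, if_neg h', if_neg h'']
  omega

/-! ## The four-agent submarket -/

section Core

variable {M W : Type} [Fintype M] [Fintype W] {m₁ m₂ : M} {w₁ w₂ : W}

/-- Two-sided cyclic preferences: if `m₁` only accepts `w₁`, then `m₁` gets `w₁`. -/
theorem coreA (hm : m₁ ≠ m₂) (hw : w₁ ≠ w₂) {P : Profile M W}
    (h1 : P (Sum.inl m₁) = top2 (some w₁) none)
    (h2 : P (Sum.inl m₂) = top3 (some w₂) (some w₁) none)
    (h3 : P (Sum.inr w₁) = top3 (some m₂) (some m₁) none)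
    (h4 : P (Sum.inr w₂) = top3 (some m₁) (some m₂) none)
    {μ : Matching M W} (hμ : Stable P μ) : μ.partner (Sum.inl m₁) = some w₁ := by
  obtain ⟨irM, irW, nb⟩ := hμ
  by_contra hne
  -- m₁ is unmatched
  have e1 : μ.partner (Sum.inl m₁) = none := by
    by_contra hn
    have := irM m₁
    rw [h1] at this
    exact this (top2_gt_second (by simp) hne hn)
  -- w₁ is matched to m₂
  have e2 : μ.partner (Sum.inr w₁) = some m₂ := by
    by_contra hn
    have hnm1 : μ.partner (Sum.inr w₁) ≠ some m₁ := by
      intro h
      rw [(μ.symm m₁ w₁).mpr h] at e1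
      simp at e1
    refine nb m₁ w₁ ⟨?_, ?_⟩
    · rw [h1]; exact top2_gt_first hne
    · rw [h3]; exact top3_gt_second (by simpa using hm) hn hnm1
  have e3 : μ.partner (Sum.inl m₂) = some w₁ := (μ.symm m₂ w₁).mpr e2
  -- (m₂, w₂) blocks
  refine nb m₂ w₂ ⟨?_, ?_⟩
  · rw [h2, e3]; exact top3_gt_first (by simpa using hw)
  · rw [h4]
    refine top3_gt_second (by simpa using hm.symm) ?_ ?_
    · intro h
      rw [(μ.symm m₁ w₂).mpr h] at e1
      simp at e1
    · intro h
      have := (μ.symm m₂ w₂).mpr h
      rw [e3] at this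
      exact hw (by simpa using this)

/-- If `w₁` only accepts `m₂`, then `w₁` gets `m₂`. -/
theorem coreB (hm : m₁ ≠ m₂) (hw : w₁ ≠ w₂) {P : Profile M W}
    (h1 : P (Sum.inl m₁) = top3 (some w₁) (some w₂) none)
    (h2 : P (Sum.inl m₂) = top3 (some w₂) (some w₁) none)
    (h3 : P (Sum.inr w₁) = top2 (some m₂) none)
    (h4 : P (Sum.inr w₂) = top3 (some m₁) (some m₂) none)
    {μ : Matching M W} (hμ : Stable P μ) : μ.partner (Sum.inr w₁) = some m₂ := by
  obtain ⟨irM, irW, nb⟩ := hμ
  by_contra hne
  -- w₁ is unmatched
  have e1 : μ.partner (Sum.inr w₁) = none := by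
    by_contra hn
    have := irW w₁
    rw [h3] at this
    exact this (top2_gt_second (by simp) hne hn)
  -- m₂ is matched to w₂
  have e2 : μ.partner (Sum.inl m₂) = some w₂ := by
    by_contra hn
    have hnw1 : μ.partner (Sum.inl m₂) ≠ some w₁ := by
      intro h
      rw [(μ.symm m₂ w₁).mp h] at e1
      simp at e1
    refine nb m₂ w₁ ⟨?_, ?_⟩
    · rw [h2]; exact top3_gt_second (by simpa using hw) hn hnw1
    · rw [h3]; exact top2_gt_first hne
  have e3 : μ.partner (Sum.inr w₂) = some m₂ := (μ.symm m₂ w₂).mp e2
  -- (m₁, w₂) blocks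
  refine nb m₁ w₂ ⟨?_, ?_⟩
  · rw [h1]
    refine top3_gt_second (by simpa using hw.symm) ?_ ?_
    · intro h
      rw [(μ.symm m₁ w₁).mp h] at e1
      simp at e1
    · intro h
      have := (μ.symm m₁ w₂).mp h
      rw [e3] at this
      exact hm (by simpa using this.symm)
  · rw [h4, e3]; exact top3_gt_first (by simpa using hm.symm)

/-- The base profile. -/
noncomputable def base (m₁ m₂ : M) (w₁ w₂ : W) : Profile M W
  | Sum.inl m => if m = m₁ then top3 (some w₁) (some w₂) none
      else top3 (some w₂) (some w₁) none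
  | Sum.inr w => if w = w₁ then top3 (some m₂) (some m₁) none
      else top3 (some m₁) (some m₂) none

theorem manipulable_three (hm : m₁ ≠ m₂) (hw : w₁ ≠ w₂) {F : Profile M W → Matching M W}
    (hF : IsStableMechanism F) : Manipulable F 3 := by
  set P₀ := base m₁ m₂ w₁ w₂ with hP₀
  have b1 : P₀ (Sum.inl m₁) = top3 (some w₁) (some w₂) none := by simp [hP₀, base]
  have b2 : P₀ (Sum.inl m₂) = top3 (some w₂) (some w₁) none := by simp [hP₀, base, hm.symm]
  have b3 : P₀ (Sum.inr w₁) = top3 (some m₂) (some m₁) none := by simp [hP₀, base]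
  have b4 : P₀ (Sum.inr w₂) = top3 (some m₁) (some m₂) none := by simp [hP₀, base, hw.symm]
  by_cases hcase : ∃ P : Profile M W, P (Sum.inl m₁) = P₀ (Sum.inl m₁) ∧
      P (Sum.inl m₂) = P₀ (Sum.inl m₂) ∧ P (Sum.inr w₁) = P₀ (Sum.inr w₁) ∧
      P (Sum.inr w₂) = P₀ (Sum.inr w₂) ∧ (F P).partner (Sum.inl m₁) ≠ some w₁
  · -- the agent `m₁` manipulates
    set r : Pref (Side M W (Sum.inl m₁)) := top2 (some w₁) none with hr
    have hnew : ∀ P : Profile M W,
        (∀ a ∈ ({Sum.inl m₂, Sum.inr w₁, Sum.inr w₂} : Finset (M ⊕ W)), P a = P₀ a) →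
        (F (Function.update P (Sum.inl m₁) r)).partner (Sum.inl m₁) = some w₁ := by
      intro P hP
      refine coreA hm hw ?_ ?_ ?_ ?_ (hF _)
      · rw [Function.update_self]
      · rw [Function.update_of_ne (by simpa using hm.symm), hP _ (by simp), b2]
      · rw [Function.update_of_ne (by simp), hP _ (by simp), b3]
      · rw [Function.update_of_ne (by simp), hP _ (by simp), b4]
    refine ⟨Sum.inl m₁, {Sum.inl m₂, Sum.inr w₁, Sum.inr w₂}, P₀, r, ?_, ?_, ?_, ?_, ?_⟩
    · simp [hm]
    · rw [Finset.card_insert_of_notMem (by simp), Finset.card_insert_of_notMem (by simp [hw]),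
        Finset.card_singleton]
    · intro h
      rw [b1] at h
      have h1 : (top3 (some w₁) (some w₂) none : Pref (Option W)).gt (some w₂) none :=
        top3_gt_second (by simpa using hw.symm) (by simp) (by simp)
      rw [← h] at h1
      have h2 : (top2 (some w₁) none : Pref (Option W)).gt none (some w₂) :=
        top2_gt_second (by simp) (by simpa using hw.symm) (by simp)
      exact Pref.irrefl _ _ (Pref.trans _ _ _ _ h1 h2)
    · intro P _ hPK
      rw [hnew P hPK]
      by_cases he : (F P).partner (Sum.inl m₁) = some w₁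
      · right; exact he.symm
      · left; rw [b1]; exact top3_gt_first he
    · obtain ⟨P, p1, p2, p3, p4, hne⟩ := hcase
      have hPK : ∀ a ∈ ({Sum.inl m₂, Sum.inr w₁, Sum.inr w₂} : Finset (M ⊕ W)), P a = P₀ a := by
        intro a ha
        simp only [Finset.mem_insert, Finset.mem_singleton] at ha
        rcases ha with rfl | rfl | rfl
        · exact p2
        · exact p3
        · exact p4
      refine ⟨P, p1, hPK, ?_⟩
      rw [hnew P hPK, b1]
      exact top3_gt_first hne
  · -- the agent `w₁` manipulates
    push Not at hcase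
    set r : Pref (Side M W (Sum.inr w₁)) := top2 (some m₂) none with hr
    have hnew : ∀ P : Profile M W,
        (∀ a ∈ ({Sum.inl m₁, Sum.inl m₂, Sum.inr w₂} : Finset (M ⊕ W)), P a = P₀ a) →
        (F (Function.update P (Sum.inr w₁) r)).partner (Sum.inr w₁) = some m₂ := by
      intro P hP
      refine coreB hm hw ?_ ?_ ?_ ?_ (hF _)
      · rw [Function.update_of_ne (by simp), hP _ (by simp), b1]
      · rw [Function.update_of_ne (by simp), hP _ (by simp), b2]
      · rw [Function.update_self]
      · rw [Function.update_of_ne (by simpa using hw.symm), hP _ (by simp), b4]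
    refine ⟨Sum.inr w₁, {Sum.inl m₁, Sum.inl m₂, Sum.inr w₂}, P₀, r, ?_, ?_, ?_, ?_, ?_⟩
    · simp [hw]
    · rw [Finset.card_insert_of_notMem (by simp [hm]), Finset.card_insert_of_notMem (by simp),
        Finset.card_singleton]
    · intro h
      rw [b3] at h
      have h1 : (top3 (some m₂) (some m₁) none : Pref (Option M)).gt (some m₁) none :=
        top3_gt_second (by simpa using hm) (by simp) (by simp)
      rw [← h] at h1
      have h2 : (top2 (some m₂) none : Pref (Option M)).gt none (some m₁) :=
        top2_gt_second (by simp) (by simpa using hm) (by simp)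
      exact Pref.irrefl _ _ (Pref.trans _ _ _ _ h1 h2)
    · intro P _ hPK
      rw [hnew P hPK]
      by_cases he : (F P).partner (Sum.inr w₁) = some m₂
      · right; exact he.symm
      · left; rw [b3]; exact top3_gt_first he
    · refine ⟨P₀, rfl, fun _ _ => rfl, ?_⟩
      rw [hnew P₀ (fun _ _ => rfl)]
      have h1 := hcase P₀ rfl rfl rfl rfl
      rw [(F P₀).symm m₁ w₁] at h1
      rw [h1, b3]
      exact top3_gt_first (by simpa using hm)

end Core

/-- With at least two agents on each side, the RAT-degree of a stable mechanism is at most `3`. -/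
theorem ratDegree_le_three {M W : Type} [Fintype M] [Fintype W] (hM : 2 ≤ Fintype.card M)
    (hW : 2 ≤ Fintype.card W) {F : Profile M W → Matching M W} (hF : IsStableMechanism F) :
    ratDegree F ≤ 3 := by
  obtain ⟨m₁, m₂, hm⟩ := Fintype.one_lt_card_iff.mp (by omega : 1 < Fintype.card M)
  obtain ⟨w₁, w₂, hw⟩ := Fintype.one_lt_card_iff.mp (by omega : 1 < Fintype.card W)
  exact Nat.sInf_le (Or.inl ⟨by omega, manipulable_three hm hw hF⟩)

/-- **Every stable matching mechanism on agent sets with `|M|, |W| ≥ 2` has RAT-degree at most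
`3`; hence no family of stable matching mechanisms has RAT-degree `Ω(n)`.** -/
theorem result :
    (∀ (M W : Type) [Fintype M] [Fintype W], 2 ≤ Fintype.card M → 2 ≤ Fintype.card W →
      ∀ F : Profile M W → Matching M W, IsStableMechanism F → ratDegree F ≤ 3) ∧
    ¬ ∃ F : ∀ (M W : Type) [Fintype M] [Fintype W], Profile M W → Matching M W,
      (∀ (M W : Type) [Fintype M] [Fintype W], IsStableMechanism (F M W)) ∧
      ∃ c : ℝ, 0 < c ∧ ∃ n₀ : ℕ, ∀ (M W : Type) [Fintype M] [Fintype W],
        n₀ ≤ Fintype.card M + Fintype.card W →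
        c * ((Fintype.card M : ℝ) + Fintype.card W) ≤ ratDegree (F M W) := by
  refine ⟨fun M W _ _ hM hW F hF => ratDegree_le_three hM hW hF, ?_⟩
  rintro ⟨F, hF, c, hc, n₀, h⟩
  obtain ⟨k, hk⟩ := exists_nat_gt (3 / c)
  set N : ℕ := max (max k n₀) 2 with hN
  have h1 : 2 ≤ N := le_max_right _ _
  have h2 : n₀ ≤ N := le_trans (le_max_right k n₀) (le_max_left _ _)
  have h3 : k ≤ N := le_trans (le_max_left k n₀) (le_max_left _ _)
  have h4 := h (Fin N) (Fin N) (by simp; omega)
  have h5 : ratDegree (F (Fin N) (Fin N)) ≤ 3 :=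
    ratDegree_le_three (by simpa using h1) (by simpa using h1) (hF _ _)
  have h6 : (ratDegree (F (Fin N) (Fin N)) : ℝ) ≤ 3 := by exact_mod_cast h5
  rw [div_lt_iff₀ hc] at hk
  have h7 : (k : ℝ) ≤ N := by exact_mod_cast h3
  have h8 : (0 : ℝ) ≤ N := by positivity
  simp only [Fintype.card_fin] at h4
  nlinarith

end Pool.Agent.Results.MP_35fdad_lc.RatDegreeThree
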